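import Mathlib

/-!
Base change for the height on number fields.
-/

set_option autoImplicit false

namespace Pool.Agent.H405Z.Bog

open NumberField Height

theorem prod_infinitePlace_eq {K : Type*} [Field K] [NumberField K] (g : InfinitePlace K → ℝ) :
    ∏ v : InfinitePlace K, g v ^ v.mult = ∏ φ : K →+* ℂ, g (InfinitePlace.mk φ) := by
  classical
  rw [← Finset.prod_fiberwise Finset.univ InfinitePlace.mk (fun φ => g (InfinitePlace.mk φ))]
  refine Finset.prod_congr rfl fun w _ => ?_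
  have (φ : K →+* ℂ) (hφ : φ ∈ Finset.univ.filter (fun φ : K →+* ℂ => InfinitePlace.mk φ = w)) :
      g (InfinitePlace.mk φ) = g w := by rw [(Finset.mem_filter.mp hφ).2]
  rw [Finset.prod_congr rfl this, Finset.prod_const, InfinitePlace.card_filter_mk_eq]

theorem card_ext {K L : Type*} [Field K] [NumberField K] [Field L] [NumberField L] [Algebra K L]
    (ψ : K →+* ℂ) [DecidablePred fun φ : L →+* ℂ => φ.comp (algebraMap K L) = ψ] :
    (Finset.univ.filter (fun φ : L →+* ℂ => φ.comp (algebraMap K L) = ψ)).card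
      = Module.finrank K L := by
  let : Algebra K ℂ := ψ.toAlgebra
  have : FiniteDimensional K L := Module.Finite.of_restrictScalars_finite ℚ K L
  rw [← AlgHom.card K L ℂ, ← Fintype.card_subtype]
  refine Fintype.card_congr ⟨fun φ => ⟨φ.1, fun x => RingHom.congr_fun φ.2 x⟩,
    fun f => ⟨f.toRingHom, RingHom.ext fun x => f.commutes x⟩, fun φ => rfl, fun f => rfl⟩

theorem prod_emb_ext {K L : Type*} [Field K] [NumberField K] [Field L] [NumberField L]
    [Algebra K L] (G : (K →+* ℂ) → ℝ) :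
    ∏ φ : L →+* ℂ, G (φ.comp (algebraMap K L)) = (∏ ψ : K →+* ℂ, G ψ) ^ Module.finrank K L := by
  classical
  rw [← Finset.prod_fiberwise Finset.univ (fun φ : L →+* ℂ => φ.comp (algebraMap K L)),
    ← Finset.prod_pow]
  refine Finset.prod_congr rfl fun ψ _ => ?_
  have (φ : L →+* ℂ) (hφ : φ ∈ Finset.univ.filter
      (fun φ : L →+* ℂ => φ.comp (algebraMap K L) = ψ)) :
      G (φ.comp (algebraMap K L)) = G ψ := by rw [(Finset.mem_filter.mp hφ).2]
  rw [Finset.prod_congr rfl this, Finset.prod_const, card_ext]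

theorem mulHeight₁_div_mul_absNorm {K : Type*} [Field K] [NumberField K] (a b : 𝓞 K)
    (hb : b ≠ 0) : mulHeight₁ ((a : K) / b) * (Ideal.span {a, b}).absNorm
      = ∏ φ : K →+* ℂ, max ‖φ a‖ ‖φ b‖ := by
  have hne : (![a, b] : Fin 2 → 𝓞 K) ≠ 0 := by
    intro h
    exact hb (by simpa using congrFun h 1)
  have hne' : (![(a : K), b] : Fin 2 → K) ≠ 0 := by
    intro h
    exact hb (by simpa using congrFun h 1)
  have h := absNorm_mul_finprod_finitePlace_eq_one hne
  have hr : Set.range (![a, b] : Fin 2 → 𝓞 K) = {a, b} := by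
    rw [Matrix.range_cons, Matrix.range_cons, Matrix.range_empty]; simp [Set.pair_comm]
  have hv (i : Fin 2) : ((![a, b] : Fin 2 → 𝓞 K) i : K) = ![(a : K), b] i := by
    fin_cases i <;> rfl
  rw [hr] at h
  simp only [hv] at h
  rw [mulHeight₁_div_eq_mulHeight, NumberField.mulHeight_eq hne', mul_assoc,
    mul_comm (finprod _) (_ : ℝ), h, mul_one, prod_infinitePlace_eq (fun v => ⨆ i, v (![(a : K), b] i))]
  refine Finset.prod_congr rfl fun φ _ => ?_
  apply le_antisymm
  · refine ciSup_le fun i => ?_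
    fin_cases i
    · exact le_max_left _ _
    · exact le_max_right _ _
  · refine max_le ?_ ?_
    · exact Finite.le_ciSup_of_le 0 le_rfl
    · exact Finite.le_ciSup_of_le 1 le_rfl

theorem mulHeight₁_algebraMap {K L : Type*} [Field K] [NumberField K] [Field L] [NumberField L]
    [Algebra K L] (x : K) :
    mulHeight₁ (algebraMap K L x) = mulHeight₁ x ^ Module.finrank K L := by
  obtain ⟨a, b, hb, rfl⟩ := IsFractionRing.div_surjective (A := 𝓞 K) x
  have hb0 : b ≠ 0 := nonZeroDivisors.ne_zero hb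
  have hb1 : algebraMap (𝓞 K) (𝓞 L) b ≠ 0 := by
    simpa using hb0
  have h1 := mulHeight₁_div_mul_absNorm a b hb0
  have h2 := mulHeight₁_div_mul_absNorm (algebraMap (𝓞 K) (𝓞 L) a) _ hb1
  have h3 : Ideal.span {algebraMap (𝓞 K) (𝓞 L) a, algebraMap (𝓞 K) (𝓞 L) b}
      = (Ideal.span {a, b}).map (algebraMap (𝓞 K) (𝓞 L)) := by
    rw [Ideal.map_span, Set.image_pair]
  have h4 : Module.finrank (𝓞 K) (𝓞 L) = Module.finrank K L :=
    (Algebra.IsAlgebraic.finrank_of_isFractionRing (𝓞 K) K (𝓞 L) L).symm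
  rw [h3, Ideal.absNorm_algebraMap, h4] at h2
  have h5 := prod_emb_ext (L := L) (fun ψ : K →+* ℂ => max ‖ψ a‖ ‖ψ b‖)
  have hN : ((Ideal.span {a, b}).absNorm : ℝ) ≠ 0 := by
    have : Ideal.span {a, b} ≠ (⊥ : Ideal (𝓞 K)) := by
      intro h
      exact hb0 (Ideal.span_eq_bot.mp h b (by simp))
    exact_mod_cast Ideal.absNorm_eq_zero_iff.not.mpr this
  rw [← h1, mul_pow] at h5
  apply mul_right_cancel₀ (pow_ne_zero (Module.finrank K L) hN)
  rw [← h5, map_div₀]
  push_cast at h2
  exact h2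

theorem logHeight₁_algebraMap {K L : Type*} [Field K] [NumberField K] [Field L] [NumberField L]
    [Algebra K L] (x : K) :
    logHeight₁ (algebraMap K L x) = Module.finrank K L * logHeight₁ x := by
  rw [logHeight₁_eq_log_mulHeight₁, mulHeight₁_algebraMap, Real.log_pow]
  rfl

theorem logHeight₁_ringHom {K L : Type*} [Field K] [NumberField K] [Field L] [NumberField L]
    (f : K →+* L) (x : K) :
    Module.finrank ℚ K * logHeight₁ (f x) = Module.finrank ℚ L * logHeight₁ x := by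
  let : Algebra K L := f.toAlgebra
  have h := logHeight₁_algebraMap (L := L) x
  have h2 : Module.finrank ℚ K * Module.finrank K L = Module.finrank ℚ L :=
    Module.finrank_mul_finrank ℚ K L
  change _ * logHeight₁ (algebraMap K L x) = _
  rw [h, ← h2]
  push_cast
  ring

theorem logHeight₁_aut {K : Type*} [Field K] [NumberField K] (σ : Gal(K/ℚ)) (x : K) :
    logHeight₁ (σ x) = logHeight₁ x := by
  have h := logHeight₁_ringHom (σ : K →+* K) x
  have hd : (Module.finrank ℚ K : ℝ) ≠ 0 := by exact_mod_cast Module.finrank_pos.ne'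
  exact mul_left_cancel₀ hd h

theorem logHeight₁_nat {K : Type*} [Field K] [NumberField K] (n : ℕ) (hn : n ≠ 0) :
    logHeight₁ (n : K) = Module.finrank ℚ K * Real.log n := by
  have : NeZero n := ⟨hn⟩
  have h := logHeight₁_algebraMap (K := ℚ) (L := K) (n : ℚ)
  rw [map_natCast, Rat.logHeight₁_natCast] at h
  exact h

open IntermediateField in
theorem absLogHeight_eq_of_mem {Ω : Type*} [Field Ω] [CharZero Ω] (E : IntermediateField ℚ Ω)
    [NumberField E] (x : E) :
    Module.finrank ℚ E * absLogHeight₁ (x : Ω) = logHeight₁ x := by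
  have hx : IsIntegral ℚ (x : Ω) :=
    (Algebra.IsIntegral.isIntegral (R := ℚ) x).map E.val
  have : FiniteDimensional ℚ ℚ⟮(x : Ω)⟯ := adjoin.finiteDimensional hx
  have : NumberField ℚ⟮(x : Ω)⟯ := {}
  have hle : ℚ⟮(x : Ω)⟯ ≤ E := adjoin_simple_le_iff.mpr x.2
  have h := logHeight₁_ringHom (inclusion hle : ℚ⟮(x : Ω)⟯ →+* E) (AdjoinSimple.gen ℚ (x : Ω))
  have e : absLogHeight₁ (x : Ω)
      = (Module.finrank ℚ ℚ⟮(x : Ω)⟯ : ℝ)⁻¹ * logHeight₁ (AdjoinSimple.gen ℚ (x : Ω)) := by
    unfold absLogHeight₁ absMulHeight₁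
    rw [dif_pos hx, Real.log_rpow (mulHeight₁_pos _)]
    rfl
  have hd : (Module.finrank ℚ ℚ⟮(x : Ω)⟯ : ℝ) ≠ 0 := by exact_mod_cast Module.finrank_pos.ne'
  have e2 : (inclusion hle : ℚ⟮(x : Ω)⟯ →+* E) (AdjoinSimple.gen ℚ (x : Ω)) = x := rfl
  rw [e2] at h
  rw [e, mul_left_comm, ← h, ← mul_assoc, inv_mul_cancel₀ hd, one_mul]

end Pool.Agent.H405Z.Bog
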