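import Mathlib

/-!
The Bogomolov property for the multiplicative group, and the fields `F^(d)`.
-/

set_option autoImplicit false

namespace Pool.Agent.H405Z.Bog

/-- A field `L` of algebraic numbers has the Bogomolov property for the multiplicative group: there
is `c > 0` such that every nonzero element of `L` that is not a root of unity has absolute
logarithmic Weil height at least `c`. -/
def HasBogomolov {K : Type} [Field K] [Algebra K (AlgebraicClosure ℚ)]
    (L : IntermediateField K (AlgebraicClosure ℚ)) : Prop :=
  ∃ c : ℝ, 0 < c ∧ ∀ x ∈ L, x ≠ 0 → ¬ IsOfFinOrder x → c ≤ NumberField.absLogHeight₁ x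

/-- `F^(d)`: the compositum, inside the algebraic closure, of all extensions of `F` of degree at
most `d`. -/
noncomputable def compositumDeg (F : IntermediateField ℚ (AlgebraicClosure ℚ)) (d : ℕ) :
    IntermediateField F (AlgebraicClosure ℚ) :=
  ⨆ (L : IntermediateField F (AlgebraicClosure ℚ))
    (_ : FiniteDimensional F L ∧ Module.finrank F L ≤ d), L

end Pool.Agent.H405Z.Bog
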