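import Mathlib

/-!
Local estimates at a finite place for elements of the inertia group.
-/

set_option autoImplicit false

namespace Pool.Agent.H405Z.Bog

open NumberField

variable {E : Type*} [Field E] [NumberField E] (w : FinitePlace E)

theorem w_int_le (a : 𝓞 E) : w (a : E) ≤ 1 := by
  rw [← FinitePlace.norm_embedding_eq]
  exact FinitePlace.norm_le_one E w.maximalIdeal a

theorem w_int_lt_iff (a : 𝓞 E) : w (a : E) < 1 ↔ a ∈ w.maximalIdeal.asIdeal := by
  rw [← FinitePlace.norm_embedding_eq]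
  exact FinitePlace.norm_lt_one_iff_mem E w.maximalIdeal a

theorem w_int_eq_one {a : 𝓞 E} (ha : a ∉ w.maximalIdeal.asIdeal) : w (a : E) = 1 :=
  le_antisymm (w_int_le w a) (not_lt.mp fun h => ha ((w_int_lt_iff w a).mp h))

theorem w_nat_le (n : ℕ) : w (n : E) ≤ 1 := by
  simpa using w_int_le w (n : 𝓞 E)

theorem exists_frac {x : E} (hx : w x ≤ 1) :
    ∃ a s : 𝓞 E, s ∉ w.maximalIdeal.asIdeal ∧ x * (s : E) = (a : E) := by
  obtain ⟨n, d, h | h⟩ := w.maximalIdeal.exists_primeCompl_mul_eq_or_mul_eq x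
  · exact ⟨n, d, d.2, h⟩
  · refine ⟨d, n, fun hn => ?_, h⟩
    have h1 := (w_int_lt_iff w n).mpr hn
    have h2 := w_int_eq_one w (a := d) d.2
    have h3 : w x * w (n : E) = w ((d : 𝓞 E) : E) := by rw [← map_mul]; exact congrArg w h
    have h4 : 0 ≤ w (n : E) := apply_nonneg _ _
    nlinarith

theorem w_add_lt {a b : E} (ha : w a < 1) (hb : w b < 1) : w (a + b) < 1 :=
  (FinitePlace.add_le w a b).trans_lt (max_lt ha hb)

theorem w_add_le {a b : E} (ha : w a ≤ 1) (hb : w b ≤ 1) : w (a + b) ≤ 1 :=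
  (FinitePlace.add_le w a b).trans (max_le ha hb)

theorem w_neg (a : E) : w (-a) = w a := map_neg_eq_map w a

theorem w_sub_lt {a b : E} (ha : w a < 1) (hb : w b < 1) : w (a - b) < 1 := by
  rw [sub_eq_add_neg]; exact w_add_lt w ha (by rwa [w_neg])

theorem w_mul_lt {a b : E} (ha : w a < 1) (hb : w b ≤ 1) : w (a * b) < 1 := by
  rw [map_mul]
  have h1 : 0 ≤ w a := apply_nonneg _ _
  have h2 : 0 ≤ w b := apply_nonneg _ _
  nlinarith

theorem w_pow_le {a : E} (ha : w a ≤ 1) (k : ℕ) : w (a ^ k) ≤ 1 := by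
  rw [map_pow]; exact pow_le_one₀ (apply_nonneg _ _) ha

theorem w_pow_sub_pow {a b : E} (ha : w a ≤ 1) (hb : w b ≤ 1) (h : w (a - b) < 1) (k : ℕ) :
    w (a ^ k - b ^ k) < 1 := by
  induction k with
  | zero => simp
  | succ k ih =>
    have e : a ^ (k + 1) - b ^ (k + 1) = (a ^ k - b ^ k) * a + (a - b) * b ^ k := by ring
    rw [e]
    exact w_add_lt w (w_mul_lt w ih ha) (w_mul_lt w h (w_pow_le w hb k))

theorem w_geom {a b : E} (ha : w a ≤ 1) (hb : w b ≤ 1) (h : w (a - b) < 1) (k : ℕ) :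
    w (∑ i ∈ Finset.range k, a ^ i * b ^ (k - 1 - i) - k * b ^ (k - 1)) < 1 := by
  have e : ∑ i ∈ Finset.range k, a ^ i * b ^ (k - 1 - i) - k * b ^ (k - 1)
      = ∑ i ∈ Finset.range k, (a ^ i - b ^ i) * b ^ (k - 1 - i) := by
    have : (k : E) * b ^ (k - 1) = ∑ i ∈ Finset.range k, b ^ i * b ^ (k - 1 - i) := by
      rw [Finset.sum_congr rfl (g := fun _ => b ^ (k - 1))]
      · simp
      · intro i hi
        rw [← pow_add]
        congr 1
        have := Finset.mem_range.mp hi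
        omega
    rw [this, ← Finset.sum_sub_distrib]
    refine Finset.sum_congr rfl fun i _ => by ring
  rw [e]
  refine Finset.sum_induction _ (fun x => w x < 1) (fun x y hx hy => w_add_lt w hx hy) (by simp) ?_
  intro i _
  exact w_mul_lt w (w_pow_sub_pow w ha hb h i) (w_pow_le w hb _)

theorem inertia_sub_lt {τ : Gal(E/ℚ)} (hτ : τ ∈ w.maximalIdeal.asIdeal.inertia Gal(E/ℚ))
    {x : E} (hx : w x ≤ 1) : w (τ x - x) < 1 := by
  obtain ⟨a, s, hs, h⟩ := exists_frac w hx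
  have hs' : τ • s ∉ w.maximalIdeal.asIdeal := by
    intro hm
    apply hs
    have := w.maximalIdeal.asIdeal.sub_mem hm (hτ s)
    simpa using this
  have hco : ∀ y : 𝓞 E, ((τ • y : 𝓞 E) : E) = τ (y : E) := fun y => rfl
  have h' : τ x * τ (s : E) = τ (a : E) := by rw [← map_mul, h]
  have hm : (τ • a - a) * s - a * (τ • s - s) ∈ w.maximalIdeal.asIdeal :=
    Ideal.sub_mem _ (Ideal.mul_mem_right _ _ (hτ a)) (Ideal.mul_mem_left _ _ (hτ s))
  have h1 := (w_int_lt_iff w _).mpr hm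
  have e : (((τ • a - a) * s - a * (τ • s - s) : 𝓞 E) : E) = (τ x - x) * (τ (s : E) * s) := by
    have e1 : (((τ • a - a) * s - a * (τ • s - s) : 𝓞 E) : E)
        = (τ (a : E) - a) * s - a * (τ (s : E) - s) := rfl
    rw [e1, ← h', ← h]
    ring
  rw [e, map_mul, map_mul, ← hco, w_int_eq_one w hs, w_int_eq_one w hs'] at h1
  simpa using h1

theorem inertia_lt {τ : Gal(E/ℚ)} (hτ : τ ∈ w.maximalIdeal.asIdeal.inertia Gal(E/ℚ))
    {x : E} (hx : w x < 1) : w (τ x) < 1 := by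
  have := w_add_lt w (inertia_sub_lt w hτ hx.le) hx
  simpa using this

theorem inertia_le {τ : Gal(E/ℚ)} (hτ : τ ∈ w.maximalIdeal.asIdeal.inertia Gal(E/ℚ))
    {x : E} (hx : w x ≤ 1) : w (τ x) ≤ 1 := by
  have := w_add_le w (inertia_sub_lt w hτ hx).le hx
  simpa using this

theorem inertia_eq {τ : Gal(E/ℚ)} (hτ : τ ∈ w.maximalIdeal.asIdeal.inertia Gal(E/ℚ))
    {g : ℕ} (hg : 0 < g) (hτg : τ ^ g = 1) {x : E} (hx : x ≠ 0) : w (τ x) = w x := by
  have hne : ∀ σ : Gal(E/ℚ), σ x ≠ 0 := fun σ => by simpa using hx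
  have hpos : ∀ σ : Gal(E/ℚ), 0 < w (σ x) := fun σ => FinitePlace.pos_iff.mpr (hne σ)
  have hx0 : 0 < w x := FinitePlace.pos_iff.mpr hx
  have hpow : ∀ i : ℕ, τ ^ i ∈ w.maximalIdeal.asIdeal.inertia Gal(E/ℚ) :=
    fun i => Subgroup.pow_mem _ hτ i
  rcases lt_trichotomy (w (τ x)) (w x) with h | h | h
  · exfalso
    have h1 : w (τ x / x) < 1 := by rw [map_div₀, div_lt_one hx0]; exact h
    have h2 : StrictAnti fun i : ℕ => w ((τ ^ i) x) := by
      refine strictAnti_nat_of_succ_lt fun i => ?_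
      have := inertia_lt w (hpow i) h1
      rw [map_div₀, map_div₀, div_lt_one (hpos _)] at this
      rwa [pow_succ, AlgEquiv.mul_apply]
    have := h2 hg
    simp [hτg] at this
  · exact h
  · exfalso
    have h1 : w (x / τ x) < 1 := by rw [map_div₀, div_lt_one (hpos _)]; exact h
    have h2 : StrictMono fun i : ℕ => w ((τ ^ i) x) := by
      refine strictMono_nat_of_lt_succ fun i => ?_
      have := inertia_lt w (hpow i) h1
      rw [map_div₀, map_div₀, ← AlgEquiv.mul_apply, div_lt_one (hpos _)] at this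
      rwa [pow_succ]
    have := h2 hg
    simp [hτg] at this

theorem inertia_pow_sub_one {τ : Gal(E/ℚ)} (hτ : τ ∈ w.maximalIdeal.asIdeal.inertia Gal(E/ℚ))
    {g : ℕ} (hg : 0 < g) (hτg : τ ^ g = 1) {x : E} (hx : x ≠ 0) :
    w ((τ x / x) ^ g - 1) < 1 := by
  have hx0 : 0 < w x := FinitePlace.pos_iff.mpr hx
  have hb : w (τ x / x) ≤ 1 := by
    rw [map_div₀, inertia_eq w hτ hg hτg hx, div_self hx0.ne']
  have key : ∀ i : ℕ, w ((τ x / x) ^ i - (τ ^ i) x / x) < 1 := by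
    intro i
    induction i with
    | zero => simp [hx]
    | succ i ih =>
      have h1 : w ((τ ^ i) x / x) ≤ 1 := by
        have := w_add_le w (w_pow_le w hb i) ((w_neg w _).trans_le ih.le)
        simpa using this
      have h2 := inertia_sub_lt w hτ h1
      have hτx : τ x ≠ 0 := by simpa using hx
      have e : (τ x / x) ^ (i + 1) - (τ ^ (i + 1)) x / x
          = ((τ x / x) ^ i - (τ ^ i) x / x) * (τ x / x)
            - (τ ((τ ^ i) x / x) - (τ ^ i) x / x) * (τ x / x) := by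
        rw [pow_succ' τ, AlgEquiv.mul_apply, map_div₀, pow_succ]
        generalize (τ x / x) ^ i = B
        field_simp
        ring
      rw [e]
      exact w_sub_lt w (w_mul_lt w ih hb) (w_mul_lt w h2 hb)
  have := key g
  rwa [hτg, AlgEquiv.one_apply, div_self hx] at this

theorem one_lt_N : (1 : ℝ) < w.maximalIdeal.asIdeal.absNorm := by
  exact_mod_cast NumberField.HeightOneSpectrum.one_lt_absNorm w.maximalIdeal

theorem w_le_inv {x : E} (hx : w x < 1) :
    w x ≤ (w.maximalIdeal.asIdeal.absNorm : ℝ)⁻¹ := by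
  obtain ⟨a, s, hs, h⟩ := exists_frac w hx.le
  have h1 : w x = w (a : E) := by rw [← h, map_mul, w_int_eq_one w hs, mul_one]
  have hN := one_lt_N w
  rw [h1] at hx ⊢
  by_cases ha : a = 0
  · rw [ha]; simp
  have h2 := FinitePlace.apply_mul_absNorm_pow_eq_one w ha
  generalize multiplicity w.maximalIdeal.asIdeal (Ideal.span {a}) = m at h2
  rcases m with _ | m
  · simp at h2; linarith
  · rw [eq_inv_of_mul_eq_one_left h2]
    apply inv_anti₀ (by linarith)
    exact le_self_pow₀ hN.le (by omega)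

theorem w_pow_iter {y : E} (hy : w (y - 1) < 1) {P : ℕ} (hP : w (P : E) < 1) (j : ℕ) :
    w (y ^ (P ^ j) - 1) ≤ (w.maximalIdeal.asIdeal.absNorm : ℝ)⁻¹ ^ (j + 1) := by
  have hN := one_lt_N w
  have hρ : (w.maximalIdeal.asIdeal.absNorm : ℝ)⁻¹ < 1 := inv_lt_one_of_one_lt₀ hN
  have hρ0 : 0 ≤ (w.maximalIdeal.asIdeal.absNorm : ℝ)⁻¹ := by positivity
  induction j with
  | zero => simpa using w_le_inv w hy
  | succ j ih =>
    set z := y ^ (P ^ j) with hz
    have hz1 : w (z - 1) < 1 := ih.trans_lt (pow_lt_one₀ hρ0 hρ (by omega))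
    have hz2 : w z ≤ 1 := by
      have := w_add_le w hz1.le (show w (1 : E) ≤ 1 by simp)
      simpa using this
    have h1 := w_geom w hz2 (show w (1 : E) ≤ 1 by simp) hz1 P
    simp only [one_pow, mul_one] at h1
    have h2 := w_add_lt w h1 hP
    rw [sub_add_cancel] at h2
    have e : y ^ (P ^ (j + 1)) - 1 = (z - 1) * ∑ i ∈ Finset.range P, z ^ i := by
      rw [mul_geom_sum, hz, ← pow_mul, ← pow_succ]
    rw [e, map_mul, pow_succ]
    exact mul_le_mul ih (w_le_inv w h2) (apply_nonneg _ _) (by positivity)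

theorem w_prime_eq [IsGalois ℚ E] {p : ℕ} (hp : p.Prime)
    (hw : (p : 𝓞 E) ∈ w.maximalIdeal.asIdeal) :
    w (p : E) = (w.maximalIdeal.asIdeal.absNorm : ℝ)⁻¹
      ^ Nat.card (w.maximalIdeal.asIdeal.inertia Gal(E/ℚ)) := by
  set Q := w.maximalIdeal.asIdeal with hQ
  have hQp : Q.IsPrime := w.maximalIdeal.isPrime
  let 𝔭 : Ideal ℤ := Ideal.span {(p : ℤ)}
  have h𝔭 : 𝔭.IsMaximal := by
    have : Fact p.Prime := ⟨hp⟩
    exact Int.ideal_span_isMaximal_of_prime p
  have hlo : Q.LiesOver 𝔭 := by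
    constructor
    refine h𝔭.eq_of_le (Ideal.IsPrime.under ℤ Q).ne_top ?_
    rw [Ideal.span_le, Set.singleton_subset_iff]
    change algebraMap ℤ (𝓞 E) p ∈ Q
    simpa using hw
  have hG : IsGaloisGroup Gal(E/ℚ) ℤ (𝓞 E) := inferInstance
  have h3 : Nat.card (Q.inertia Gal(E/ℚ)) = 𝔭.ramificationIdxIn (𝓞 E) :=
    Ideal.card_inertia_eq_ramificationIdxIn (G := Gal(E/ℚ)) 𝔭 Q
  have h4 : 𝔭.ramificationIdxIn (𝓞 E) = Q.ramificationIdx ℤ :=
    Ideal.ramificationIdxIn_eq_ramificationIdx 𝔭 Q Gal(E/ℚ)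
  have hmap : 𝔭.map (algebraMap ℤ (𝓞 E)) = Ideal.span {(p : 𝓞 E)} := by
    simp [𝔭, Ideal.map_span]
  have hp0 : (p : 𝓞 E) ≠ 0 := by exact_mod_cast hp.ne_zero
  have h5 := Ideal.IsDedekindDomain.ramificationIdx_eq_multiplicity 𝔭 Q
    (by rw [hmap]; simpa using hp.ne_zero)
  rw [hmap] at h5
  have h2 := FinitePlace.apply_mul_absNorm_pow_eq_one w hp0
  rw [h3, h4, h5, inv_pow]
  exact eq_inv_of_mul_eq_one_left (by simpa using h2)

end Pool.Agent.H405Z.Bog
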