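import Pool.Agent.H405Z.Bog.Base
import Pool.Agent.H405Z.Bog.Loc
import Pool.Agent.H559Z.Inertia

/-!
Small points are fixed, after a bounded power, by a direct factor of bounded order of the Galois
group.
-/

set_option autoImplicit false

namespace Pool.Agent.H405Z.Bog

open NumberField Height

variable {E : Type*} [Field E] [NumberField E]

theorem prod_le_mulHeight (T : Finset (FinitePlace E)) {x : E} (hx : x ≠ 0) :
    ∏ w ∈ T, max (w x) 1 ≤ mulHeight₁ x := by
  classical
  have hfin : (Function.mulSupport fun v : FinitePlace E => max (v x) 1).Finite := by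
    refine (FinitePlace.hasFiniteMulSupport hx).subset ?_
    intro v hv h
    apply hv
    simp only at h
    simp [h]
  rw [NumberField.mulHeight₁_eq,
    finprod_eq_prod_of_mulSupport_subset (s := T ∪ hfin.toFinset) _ (by
      intro v hv; simp only [Finset.coe_union, Set.Finite.coe_toFinset]; exact Or.inr hv)]
  have h1 : (1 : ℝ) ≤ ∏ v : InfinitePlace E, max (v x) 1 ^ v.mult :=
    Finset.one_le_prod fun v _ => one_le_pow₀ (le_max_right _ _)
  have h2 : ∏ w ∈ T, max (w x) 1 ≤ ∏ w ∈ T ∪ hfin.toFinset, max (w x) 1 :=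
    Finset.prod_le_prod_of_subset_of_one_le Finset.subset_union_left
      (fun _ _ => by positivity) (fun _ _ _ => le_max_right _ _)
  have h3 : 0 ≤ ∏ w ∈ T ∪ hfin.toFinset, max (w x) 1 :=
    Finset.prod_nonneg fun _ _ => by positivity
  nlinarith

theorem height_lower {ι : Type*} [Fintype ι] (x : ι → E) (hx : ∀ i, x i ≠ 0) {p : ℕ} (hp : p ≠ 0)
    (r : ℕ) (h : ∀ w : FinitePlace E, w (p : E) < 1 → ∃ i, w (x i) ≤ w (p : E) ^ r) :
    (r * Module.finrank ℚ E : ℝ) * Real.log p ≤ ∑ i, logHeight₁ (x i) := by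
  classical
  have hpE : (p : E) ≠ 0 := by exact_mod_cast hp
  have hfin := FinitePlace.hasFiniteMulSupport hpE
  set T := hfin.toFinset with hT
  have h1 : ∏ w ∈ T, w (p : E) = ((p : ℝ) ^ Module.finrank ℚ E)⁻¹ := by
    rw [← finprod_eq_prod_of_mulSupport_subset (s := T) _
        (fun v hv => (Set.Finite.mem_toFinset hfin).mpr hv),
      FinitePlace.prod_eq_inv_abs_norm hpE]
    have : Algebra.norm ℚ (p : E) = (p : ℚ) ^ Module.finrank ℚ E := by
      rw [← map_natCast (algebraMap ℚ E), Algebra.norm_algebraMap]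
    rw [this]
    push_cast
    rw [abs_of_nonneg (by positivity)]
  have h2 : ((p : ℝ) ^ Module.finrank ℚ E) ^ r ≤ ∏ i, mulHeight₁ (x i) := by
    calc ((p : ℝ) ^ Module.finrank ℚ E) ^ r = ∏ w ∈ T, ((w (p : E)) ^ r)⁻¹ := by
          rw [Finset.prod_inv_distrib, Finset.prod_pow, h1, inv_pow, inv_inv]
      _ ≤ ∏ w ∈ T, ∏ i, max (w (x i)⁻¹) 1 := by
          refine Finset.prod_le_prod (fun w _ => by positivity) fun w hw => ?_
          have hw1 : w (p : E) < 1 := lt_of_le_of_ne (w_nat_le w p)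
            ((Set.Finite.mem_toFinset hfin).mp hw)
          obtain ⟨i, hi⟩ := h w hw1
          have hpos : 0 < w (x i) := FinitePlace.pos_iff.mpr (hx i)
          calc ((w (p : E)) ^ r)⁻¹ ≤ (w (x i))⁻¹ := inv_anti₀ hpos hi
            _ ≤ max (w (x i)⁻¹) 1 := by rw [map_inv₀]; exact le_max_left _ _
            _ ≤ _ := by
              have := Finset.prod_le_prod_of_subset_of_one_le
                (f := fun i => max (w (x i)⁻¹) 1) (Finset.subset_univ {i})
                (fun _ _ => by positivity) (fun _ _ _ => le_max_right _ _)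
              simpa using this
      _ = ∏ i, ∏ w ∈ T, max (w (x i)⁻¹) 1 := Finset.prod_comm
      _ ≤ ∏ i, mulHeight₁ (x i) := by
          refine Finset.prod_le_prod (fun i _ => Finset.prod_nonneg fun _ _ => by positivity)
            fun i _ => ?_
          rw [← mulHeight₁_inv]
          exact prod_le_mulHeight T (inv_ne_zero (hx i))
  have hp0 : (0 : ℝ) < p := by exact_mod_cast Nat.pos_of_ne_zero hp
  have h3 := Real.log_le_log (by positivity) h2
  rw [Real.log_pow, Real.log_pow, Real.log_prod (fun i _ => (mulHeight₁_pos _).ne')] at h3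
  simp only [logHeight₁_eq_log_mulHeight₁]
  linarith

open scoped Pointwise in
theorem conj_mem_inertia {Q : Ideal (𝓞 E)} {τ : Gal(E/ℚ)} (hτ : τ ∈ Q.inertia Gal(E/ℚ))
    (σ : Gal(E/ℚ)) : σ * τ * σ⁻¹ ∈ (σ • Q).inertia Gal(E/ℚ) := by
  intro x
  have h := hτ (σ⁻¹ • x)
  have h2 := Ideal.smul_mem_pointwise_smul σ _ Q h
  simpa [smul_sub, mul_smul] using h2

theorem key [IsGalois ℚ E] (A B : Subgroup Gal(E/ℚ)) [A.Normal] [B.Normal] (hAB : A ⊓ B = ⊥)
    {g : ℕ} (hg : Nat.card A ≤ g) {P : ℕ} (hP : P ≠ 0)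
    (h1 : ∀ Q : Ideal (𝓞 E), Q.IsMaximal → (P : 𝓞 E) ∈ Q → Q.inertia Gal(E/ℚ) ≤ A)
    (h2 : ∀ Q : Ideal (𝓞 E), Q.IsMaximal → (P : 𝓞 E) ∉ Q → Q.inertia Gal(E/ℚ) ≤ B) :
    A ⊔ B = ⊤ ∧ ∀ α : E, α ≠ 0 →
      2 * ((g.factorial * P ^ (2 * g * g) : ℕ) : ℝ) * logHeight₁ α
        < Module.finrank ℚ E * Real.log 2 →
      ∀ a ∈ A, a (α ^ (g.factorial * P ^ (2 * g * g))) = α ^ (g.factorial * P ^ (2 * g * g)) := by
  classical
  have htop : A ⊔ B = ⊤ := by
    apply Pool.Agent.H559Z.eq_top_of_inertia_le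
    intro Q hQ
    by_cases hPQ : (P : 𝓞 E) ∈ Q
    · exact (h1 Q hQ hPQ).trans le_sup_left
    · exact (h2 Q hQ hPQ).trans le_sup_right
  refine ⟨htop, fun α hα hsmall => ?_⟩
  set N := g.factorial * P ^ (2 * g * g) with hN
  have hcomm : ∀ a ∈ A, ∀ b ∈ B, Commute a b := fun a ha b hb =>
    Subgroup.commute_of_normal_of_disjoint A B inferInstance inferInstance
      (disjoint_iff.mpr hAB) a b ha hb
  have hg0 : 0 < g := lt_of_lt_of_le Nat.card_pos hg
  have hord : ∀ a ∈ A, a ^ g.factorial = 1 := by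
    intro a ha
    have : (⟨a, ha⟩ : A) ^ g.factorial = 1 := by
      apply orderOf_dvd_iff_pow_eq_one.mp
      exact Nat.dvd_factorial (orderOf_pos _) (orderOf_le_card.trans hg)
    exact congrArg Subtype.val this
  -- inertia groups at primes containing `P` fix `α ^ N`
  have hin : ∀ Q : Ideal (𝓞 E), Q.IsMaximal → (P : 𝓞 E) ∈ Q →
      ∀ τ ∈ Q.inertia Gal(E/ℚ), τ (α ^ N) = α ^ N := by
    intro Q hQ hPQ τ hτ
    by_contra hne
    have hτA := h1 Q hQ hPQ hτ
    have hγ : (τ α / α) ^ N - 1 ≠ 0 := by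
      intro h0
      apply hne
      rw [sub_eq_zero, div_pow, div_eq_one_iff_eq (pow_ne_zero _ hα)] at h0
      rw [map_pow, h0]
    obtain ⟨p, hp, hpP, hpQ⟩ : ∃ p : ℕ, p.Prime ∧ p ∣ P ∧ (p : 𝓞 E) ∈ Q := by
      have hQp := hQ.isPrime
      have : ∀ n : ℕ, n ≠ 0 → (n : 𝓞 E) ∈ Q → ∃ p : ℕ, p.Prime ∧ p ∣ n ∧ (p : 𝓞 E) ∈ Q := by
        intro n
        induction n using Nat.recOnMul with
        | zero => intro h; exact absurd rfl h
        | one => intro _ h; exact absurd ((Ideal.eq_top_iff_one _).mpr (by simpa using h)) hQ.ne_top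
        | prime p hp => intro _ h; exact ⟨p, hp, dvd_rfl, h⟩
        | mul a b iha ihb =>
          intro h0 h
          rw [Nat.cast_mul] at h
          rcases hQp.mem_or_mem h with h | h
          · obtain ⟨p, hp, h3, h4⟩ := iha (left_ne_zero_of_mul h0) h
            exact ⟨p, hp, h3.mul_right _, h4⟩
          · obtain ⟨p, hp, h3, h4⟩ := ihb (right_ne_zero_of_mul h0) h
            exact ⟨p, hp, h3.mul_left _, h4⟩
      exact this P hP hPQ
    have hlow := height_lower (ι := A) (fun a => (a : Gal(E/ℚ)) ((τ α / α) ^ N - 1))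
      (fun a => (map_ne_zero _).mpr hγ) hp.ne_zero (2 * g) (by
        intro w hw
        have hw' : (p : 𝓞 E) ∈ w.maximalIdeal.asIdeal := by
          rw [← w_int_lt_iff]; simpa using hw
        have hQp := hQ.isPrime
        have hwp := w.maximalIdeal.isPrime
        let 𝔭 : Ideal ℤ := Ideal.span {(p : ℤ)}
        have h𝔭 : 𝔭.IsMaximal := by
          have : Fact p.Prime := ⟨hp⟩
          exact Int.ideal_span_isMaximal_of_prime p
        have hlo : ∀ R : Ideal (𝓞 E), R.IsPrime → (p : 𝓞 E) ∈ R → R.LiesOver 𝔭 := by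
          intro R hR hpR
          constructor
          refine h𝔭.eq_of_le (Ideal.IsPrime.under ℤ R).ne_top ?_
          rw [Ideal.span_le, Set.singleton_subset_iff]
          change algebraMap ℤ (𝓞 E) p ∈ R
          simpa using hpR
        have := hlo Q hQp hpQ
        have := hlo _ hwp hw'
        have hG : IsGaloisGroup Gal(E/ℚ) ℤ (𝓞 E) := inferInstance
        obtain ⟨σ, hσ⟩ := Ideal.exists_smul_eq_of_isGaloisGroup 𝔭 Q w.maximalIdeal.asIdeal
          Gal(E/ℚ)
        have hσm : σ ∈ A ⊔ B := by rw [htop]; trivial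
        obtain ⟨a, ha, b, hb, rfl⟩ := Subgroup.mem_sup_of_normal_right.mp hσm
        have hc := conj_mem_inertia hτ (a * b)
        have e : a * b * τ * (a * b)⁻¹ = a * τ * a⁻¹ := by
          rw [mul_assoc a b τ, ← (hcomm τ hτA b hb).eq]
          group
        rw [hσ, e] at hc
        refine ⟨⟨a, ha⟩, ?_⟩
        have haα : a α ≠ 0 := by simpa using hα
        have hτ' : a * τ * a⁻¹ ∈ A := A.mul_mem (A.mul_mem ha hτA) (A.inv_mem ha)
        have h3 := inertia_pow_sub_one w hc g.factorial_pos (hord _ hτ') haα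
        have hPw : w (P : E) < 1 := by
          obtain ⟨c, rfl⟩ := hpP
          rw [Nat.cast_mul]
          exact w_mul_lt w hw (w_nat_le w c)
        have h4 := w_pow_iter w h3 hPw (2 * g * g)
        have e2 : a ((τ α / α) ^ N - 1)
            = (((a * τ * a⁻¹) (a α) / a α) ^ g.factorial) ^ P ^ (2 * g * g) - 1 := by
          rw [← pow_mul, map_sub, map_pow, map_div₀, map_one]
          simp [hN]
        change w (a ((τ α / α) ^ N - 1)) ≤ _
        rw [e2]
        refine h4.trans ?_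
        rw [w_prime_eq w hp hw', ← pow_mul]
        have hN1 := one_lt_N w
        have hcard : Nat.card (w.maximalIdeal.asIdeal.inertia Gal(E/ℚ)) ≤ g := by
          refine le_trans (Subgroup.card_le_of_le (h1 _ w.maximalIdeal.isMaximal ?_)) hg
          rw [← w_int_lt_iff]; simpa using hPw
        refine pow_le_pow_of_le_one (by positivity) (inv_le_one_of_one_le₀ hN1.le) ?_
        nlinarith)
    simp only [logHeight₁_aut, Finset.sum_const, Finset.card_univ, nsmul_eq_mul] at hlow
    have hup : logHeight₁ ((τ α / α) ^ N - 1)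
        ≤ Module.finrank ℚ E * Real.log 2 + 2 * N * logHeight₁ α := by
      have a1 := logHeight₁_sub_le ((τ α / α) ^ N) 1
      have a2 := logHeight₁_mul_le (τ α) α⁻¹
      rw [totalWeight_eq_finrank, logHeight₁_one, logHeight₁_pow] at a1
      rw [logHeight₁_inv, logHeight₁_aut, ← div_eq_mul_inv] at a2
      have : (0 : ℝ) ≤ N := Nat.cast_nonneg N
      nlinarith
    have hcA : (Fintype.card A : ℝ) ≤ g := by
      rw [← Nat.card_eq_fintype_card]; exact_mod_cast hg
    have hlog : Real.log 2 ≤ Real.log p :=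
      Real.log_le_log (by norm_num) (by exact_mod_cast hp.two_le)
    have hl2 : 0 < Real.log 2 := Real.log_pos (by norm_num)
    have hd : (0 : ℝ) < Module.finrank ℚ E := by exact_mod_cast Module.finrank_pos
    have hg' : (0 : ℝ) < g := by exact_mod_cast hg0
    have hH := zero_le_logHeight₁ ((τ α / α) ^ N - 1)
    have b1 : (Fintype.card A : ℝ) * logHeight₁ ((τ α / α) ^ N - 1)
        ≤ g * logHeight₁ ((τ α / α) ^ N - 1) := by gcongr
    have b2 : (g : ℝ) * logHeight₁ ((τ α / α) ^ N - 1)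
        < g * (2 * (Module.finrank ℚ E * Real.log 2)) := by
      gcongr
      linarith
    have b3 : (2 * g * Module.finrank ℚ E : ℝ) * Real.log 2
        ≤ (2 * g * Module.finrank ℚ E : ℝ) * Real.log p := by gcongr
    push_cast at hlow
    nlinarith
  let S : Subgroup Gal(E/ℚ) := MulAction.stabilizer Gal(E/ℚ) (α ^ N)
  have htop2 : (S ⊓ A) ⊔ B = ⊤ := by
    apply Pool.Agent.H559Z.eq_top_of_inertia_le
    intro Q hQ
    by_cases hPQ : (P : 𝓞 E) ∈ Q
    · exact (le_inf (fun τ hτ => hin Q hQ hPQ τ hτ) (h1 Q hQ hPQ)).trans le_sup_left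
    · exact (h2 Q hQ hPQ).trans le_sup_right
  intro a ha
  have ham : a ∈ (S ⊓ A) ⊔ B := by rw [htop2]; trivial
  obtain ⟨a₀, ha₀, b, hb, rfl⟩ := Subgroup.mem_sup_of_normal_right.mp ham
  have hb1 : b ∈ A ⊓ B := ⟨(A.mul_mem_cancel_left ha₀.2).mp ha, hb⟩
  rw [hAB, Subgroup.mem_bot] at hb1
  rw [hb1, mul_one]
  exact ha₀.1

end Pool.Agent.H405Z.Bog
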