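import Pool.Agent.H405Z.Bog.Base
import Pool.Agent.H405Z.Bog.Loc

/-!
The roots of `n X^(2 n^2) + (2n-1) X^(n^2) + n`.
-/

set_option autoImplicit false

namespace Pool.Agent.H405Z.Bog

open NumberField Height

/-- The equation `n u^2 + (2n-1) u + n = 0` for `u = r^(n^2)`. -/
def IsRt {R : Type*} [CommRing R] (n : ℕ) (r : R) : Prop :=
  (n : R) * (r ^ (n * n)) ^ 2 + (2 * n - 1) * r ^ (n * n) + n = 0

theorem IsRt.map {R S : Type*} [CommRing R] [CommRing S] {F : Type*} [FunLike F R S]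
    [RingHomClass F R S] (f : F) {n : ℕ} {r : R} (h : IsRt n r) : IsRt n (f r) := by
  unfold IsRt at *
  have := congrArg f h
  simpa [map_ofNat] using this

theorem IsRt.ne_zero {L : Type*} [Field L] [CharZero L] {n : ℕ} (hn : n ≠ 0) {r : L}
    (h : IsRt n r) : r ≠ 0 := by
  rintro rfl
  simp [IsRt, hn] at h

theorem IsRt.inertia_fix {E : Type*} [Field E] [NumberField E] (w : FinitePlace E)
    {τ : Gal(E/ℚ)} (hτ : τ ∈ w.maximalIdeal.asIdeal.inertia Gal(E/ℚ)) {n : ℕ} (hn : n ≠ 0)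
    (h1 : w (n : E) = 1) (h2 : w (4 * n - 1 : E) = 1) {r : E} (h : IsRt n r) : τ r = r := by
  have h' := h.map τ
  unfold IsRt at h h'
  have hc : w (2 * n - 1 : E) ≤ 1 := by
    have := w_int_le w (2 * n - 1 : 𝓞 E)
    simpa [map_ofNat] using this
  have hu : w (r ^ (n * n)) = 1 := by
    set u := r ^ (n * n)
    have h0 : 0 ≤ w u := apply_nonneg _ _
    rcases lt_trichotomy (w u) 1 with hl | hl | hl
    · exfalso
      have e : (n : E) = -(u * (n * u) + u * (2 * n - 1)) := by linear_combination h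
      have : w (-(u * (n * u) + u * (2 * n - 1))) < 1 := by
        rw [w_neg]
        refine w_add_lt w (w_mul_lt w hl ?_) (w_mul_lt w hl hc)
        rw [map_mul, h1, one_mul]; exact hl.le
      rw [← e] at this
      linarith
    · exact hl
    · exfalso
      have e : (n : E) * u ^ 2 = -((2 * n - 1) * u + n) := by linear_combination h
      have h3 : w ((n : E) * u ^ 2) = w u ^ 2 := by rw [map_mul, h1, one_mul, map_pow]
      have h4 : w (-((2 * n - 1) * u + n)) ≤ w u := by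
        rw [w_neg]
        refine (FinitePlace.add_le w _ _).trans (max_le ?_ (by rw [h1]; exact hl.le))
        rw [map_mul]
        nlinarith
      rw [← e, h3] at h4
      nlinarith
  have hr : w r = 1 := by
    rw [map_pow] at hu
    exact (pow_eq_one_iff_of_nonneg (apply_nonneg _ _) (Nat.mul_ne_zero hn hn)).mp hu
  have hd := inertia_sub_lt w hτ hr.le
  have hτr := inertia_le w hτ hr.le
  have hd2 := w_pow_sub_pow w hτr hr.le hd (n * n)
  by_contra hne
  by_cases hq : τ r ^ (n * n) = r ^ (n * n)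
  · have h3 := w_geom w hτr hr.le hd (n * n)
    have h4 := Commute.geom_sum₂_mul (Commute.all (τ r) r) (n * n)
    rw [hq, sub_self, mul_eq_zero] at h4
    rcases h4 with h4 | h4
    · rw [h4, zero_sub, w_neg, map_mul, map_pow, hr, one_pow, mul_one, Nat.cast_mul, map_mul,
        h1] at h3
      linarith
    · exact hne (sub_eq_zero.mp h4)
  · set u := r ^ (n * n)
    set u' := τ r ^ (n * n)
    have h3 : (n : E) * (u' + u) + (2 * n - 1) = 0 := by
      have : (u' - u) * ((n : E) * (u' + u) + (2 * n - 1)) = 0 := by linear_combination h' - h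
      exact (mul_eq_zero.mp this).resolve_left (sub_ne_zero.mpr hq)
    have h4 : (4 * n - 1 : E) = -((u' - u) * ((u' - u) * n * n)) := by
      linear_combination (4 * n) * h
        + (n * (u' - u) - (2 * n * u + 2 * n - 1)) * h3
    have h5 : w (-((u' - u) * ((u' - u) * n * n))) < 1 := by
      rw [w_neg]
      refine w_mul_lt w hd2 ?_
      rw [map_mul, map_mul, h1, mul_one, mul_one]
      exact hd2.le
    rw [← h4] at h5
    linarith

theorem IsRt.norm_eq_one {n : ℕ} (hn : n ≠ 0) {z : ℂ} (h : IsRt n z) : ‖z‖ = 1 := by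
  unfold IsRt at h
  have hn1 : (1 : ℝ) ≤ n := by exact_mod_cast Nat.pos_of_ne_zero hn
  have hu : ‖z ^ (n * n)‖ = 1 := by
    set u := z ^ (n * n)
    have hre := congrArg Complex.re h
    have him := congrArg Complex.im h
    simp [pow_two] at hre him
    have hsq : u.re ^ 2 + u.im ^ 2 = 1 := by
      have : u.im * (2 * n * u.re + (2 * n - 1)) = 0 := by linear_combination him
      rcases mul_eq_zero.mp this with h0 | h0
      · exfalso
        rw [h0] at hre
        nlinarith [sq_nonneg (2 * n * u.re + (2 * n - 1))]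
      · have : (n : ℝ) * (u.re ^ 2 + u.im ^ 2 - 1) = 0 := by
          linear_combination u.re * h0 - hre
        rcases mul_eq_zero.mp this with h1 | h1
        · linarith
        · linarith
    have : ‖u‖ ^ 2 = 1 := by
      rw [Complex.sq_norm, Complex.normSq_apply]; linarith
    exact (pow_eq_one_iff_of_nonneg (norm_nonneg _) two_ne_zero).mp this
  rw [norm_pow] at hu
  exact (pow_eq_one_iff_of_nonneg (norm_nonneg _) (Nat.mul_ne_zero hn hn)).mp hu

theorem IsRt.conj_eq_inv {n : ℕ} (hn : n ≠ 0) {z : ℂ} (h : IsRt n z) :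
    (starRingEnd ℂ) z = z⁻¹ := by
  rw [Complex.inv_def, Complex.normSq_eq_norm_sq, h.norm_eq_one hn]
  simp

theorem IsRt.not_isOfFinOrder {L : Type*} [Field L] [CharZero L] {n : ℕ} (hn : 2 ≤ n) {r : L}
    (h : IsRt n r) : ¬ IsOfFinOrder r := by
  intro hf
  have hu : IsOfFinOrder (r ^ (n * n)) := hf.pow
  unfold IsRt at h
  set u := r ^ (n * n)
  obtain ⟨m, hm, hm1⟩ := isOfFinOrder_iff_pow_eq_one.mp hu
  have hu0 : u ≠ 0 := hu.isUnit.ne_zero
  have i1 : IsIntegral ℤ u := IsIntegral.of_pow hm (hm1 ▸ isIntegral_one)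
  have i2 : IsIntegral ℤ u⁻¹ := IsIntegral.of_pow hm (by rw [inv_pow, hm1, inv_one]; exact isIntegral_one)
  have hnL : (n : L) ≠ 0 := by exact_mod_cast (by omega : n ≠ 0)
  have i3 : IsIntegral ℤ (u + u⁻¹ + 2) := (i1.add i2).add (by simpa using isIntegral_algebraMap (R := ℤ) (A := L) (x := 2))
  have e : u + u⁻¹ + 2 = algebraMap ℚ L (1 / n) := by
    simp only [map_div₀, map_one, map_natCast]
    field_simp
    linear_combination h
  rw [e, isIntegral_algebraMap_iff (algebraMap ℚ L).injective] at i3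
  obtain ⟨y, hy⟩ := IsIntegrallyClosed.isIntegral_iff.mp i3
  have h2 : (y : ℚ) = 1 / n := hy
  have hnq : (n : ℚ) ≠ 0 := by exact_mod_cast (by omega : n ≠ 0)
  have h3 : (n : ℤ) * y = 1 := by
    have : (n : ℚ) * y = 1 := by rw [h2]; field_simp
    exact_mod_cast this
  have := Int.eq_one_of_mul_eq_one_right (by positivity) h3
  omega

theorem IsRt.height_le {K : Type*} [Field K] [NumberField K] {n : ℕ} (hn : n ≠ 0) {r : K}
    (h : IsRt n r) : n * logHeight₁ r ≤ 4 * Module.finrank ℚ K := by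
  unfold IsRt at h
  have a0 := logHeight₁_pow r (n * n)
  set u := r ^ (n * n)
  have hnK : (n : K) ≠ 0 := by exact_mod_cast hn
  have hn1 : 1 ≤ n := Nat.pos_of_ne_zero hn
  have hc : (2 * n - 1 : K) = ((2 * n - 1 : ℕ) : K) := by
    rw [Nat.cast_sub (by omega)]; simp
  have e : u ^ 2 = -((((2 * n - 1 : ℕ) : K) * (n : K)⁻¹) * u + 1) := by
    rw [← hc]; field_simp; linear_combination h
  have a1 := logHeight₁_pow u 2
  have a2 := logHeight₁_add_le ((((2 * n - 1 : ℕ) : K) * (n : K)⁻¹) * u) 1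
  have a3 := logHeight₁_mul_le (((2 * n - 1 : ℕ) : K) * (n : K)⁻¹) u
  have a4 := logHeight₁_mul_le ((2 * n - 1 : ℕ) : K) (n : K)⁻¹
  rw [e, logHeight₁_neg] at a1
  rw [totalWeight_eq_finrank, logHeight₁_one] at a2
  rw [logHeight₁_inv, logHeight₁_nat _ hn, logHeight₁_nat _ (by omega)] at a4
  have hnR : (1 : ℝ) ≤ n := by exact_mod_cast hn1
  have l1 : Real.log 2 ≤ 1 := by
    have := Real.log_le_sub_one_of_pos (show (0 : ℝ) < 2 by norm_num); linarith
  have l2 : Real.log n ≤ n := by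
    have := Real.log_le_sub_one_of_pos (show (0 : ℝ) < n by linarith); linarith
  have l3 : Real.log ((2 * n - 1 : ℕ) : ℝ) ≤ 2 * n := by
    have hc' : ((2 * n - 1 : ℕ) : ℝ) = 2 * n - 1 := by rw [Nat.cast_sub (by omega)]; simp
    have := Real.log_le_sub_one_of_pos (show (0 : ℝ) < ((2 * n - 1 : ℕ) : ℝ) by rw [hc']; linarith)
    rw [hc'] at this ⊢; linarith
  have hd : (0 : ℝ) ≤ Module.finrank ℚ K := Nat.cast_nonneg _
  have b1 := mul_le_mul_of_nonneg_left l1 hd
  have b2 := mul_le_mul_of_nonneg_left l2 hd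
  have b3 := mul_le_mul_of_nonneg_left l3 hd
  have b4 : (Module.finrank ℚ K : ℝ) * 1 ≤ Module.finrank ℚ K * n := by gcongr
  push_cast at a0 a1
  have b5 : (n : ℝ) * (n * logHeight₁ r) ≤ n * (4 * Module.finrank ℚ K) := by nlinarith
  exact le_of_mul_le_mul_left b5 (by linarith)

/-- The bad primes of the `n`-th polynomial divide `bad n`. -/
def bad (n : ℕ) : ℕ := n * (4 * n - 1)

theorem exists_good (X k : ℕ) (hX : X ≠ 0) : ∃ n, k + 2 ≤ n ∧ (bad n).Coprime X := by
  obtain ⟨a, Y, hY, rfl⟩ := Nat.exists_eq_pow_mul_and_not_dvd hX 3 (by norm_num)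
  have hY0 : 0 < Y := Nat.pos_of_ne_zero (by rintro rfl; simp at hY)
  set Z := (3 * k + 4) * Y with hZ
  have hZ3 : Z * Z % 3 = 1 := by
    have h1 : Z % 3 = Y % 3 := by
      rw [hZ, Nat.mul_mod, show (3 * k + 4) % 3 = 1 by omega]; simp
    have h2 : Y % 3 = 1 ∨ Y % 3 = 2 := by omega
    rw [Nat.mul_mod, h1]
    rcases h2 with h2 | h2 <;> rw [h2]
  have hZk : k + 1 ≤ Z * Z := by
    have : 3 * k + 4 ≤ Z := Nat.le_mul_of_pos_right _ hY0
    nlinarith
  refine ⟨1 + Z * Z, by omega, ?_⟩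
  have e : bad (1 + Z * Z) = (1 + Z * Z) * (3 + 4 * (Z * Z)) := by
    unfold bad
    congr 1
    omega
  rw [e]
  have c3 : Nat.Coprime 3 Y := (Nat.Prime.coprime_iff_not_dvd Nat.prime_three).mpr hY
  refine Nat.Coprime.mul_right (Nat.Coprime.pow_right _ (Nat.Coprime.mul_left ?_ ?_))
    (Nat.Coprime.mul_left ?_ ?_)
  · exact ((Nat.Prime.coprime_iff_not_dvd Nat.prime_three).mpr (by omega)).symm
  · exact ((Nat.Prime.coprime_iff_not_dvd Nat.prime_three).mpr (by omega)).symm
  · have : 1 + Z * Z = 1 + (Z * (3 * k + 4)) * Y := by rw [hZ]; ring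
    rw [this, Nat.coprime_add_mul_right_left]
    exact Nat.coprime_one_left _
  · have : 3 + 4 * (Z * Z) = 3 + (4 * Z * (3 * k + 4)) * Y := by rw [hZ]; ring
    rw [this, Nat.coprime_add_mul_right_left]
    exact c3

/-- Next parameter. -/
noncomputable def nxt (X k : ℕ) : ℕ := if h : X ≠ 0 then (exists_good X k h).choose else 2

/-- Accumulated bad primes. -/
noncomputable def acc : ℕ → ℕ
  | 0 => 1
  | k + 1 => acc k * (k + 1) * bad (nxt (acc k) k)

/-- The sequence of parameters. -/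
noncomputable def seq (k : ℕ) : ℕ := nxt (acc k) k

theorem nxt_spec {X : ℕ} (hX : X ≠ 0) (k : ℕ) : k + 2 ≤ nxt X k ∧ (bad (nxt X k)).Coprime X := by
  unfold nxt
  rw [dif_pos hX]
  exact (exists_good X k hX).choose_spec

theorem acc_ne_zero (k : ℕ) : acc k ≠ 0 := by
  induction k with
  | zero => simp [acc]
  | succ k ih =>
    have := (nxt_spec ih k).1
    simp only [acc, bad]
    refine Nat.mul_ne_zero (Nat.mul_ne_zero ih (by omega)) (Nat.mul_ne_zero (by omega) (by omega))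

theorem le_seq (k : ℕ) : k + 2 ≤ seq k := (nxt_spec (acc_ne_zero k) k).1

theorem seq_ne_zero (k : ℕ) : seq k ≠ 0 := by have := le_seq k; omega

theorem acc_dvd {j k : ℕ} (h : j ≤ k) : acc j ∣ acc k := by
  induction h with
  | refl => rfl
  | step _ ih => exact ih.trans ((dvd_mul_right _ _).mul_right _)

theorem bad_dvd_acc {j k : ℕ} (h : j < k) : bad (seq j) ∣ acc k :=
  (dvd_mul_left _ _).trans (acc_dvd (j := j + 1) h)

theorem self_dvd_acc {m : ℕ} (hm : m ≠ 0) : m ∣ acc m := by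
  obtain ⟨k, rfl⟩ := Nat.exists_eq_succ_of_ne_zero hm
  exact (dvd_mul_left _ _).mul_right _

theorem bad_coprime {m k : ℕ} (h : m ≤ k) : (bad (seq k)).Coprime (acc m) :=
  (nxt_spec (acc_ne_zero k) k).2.coprime_dvd_right (acc_dvd h)

theorem fix_of_bad {E : Type*} [Field E] [NumberField E] {Q : Ideal (𝓞 E)} (hQ : Q.IsMaximal)
    {τ : Gal(E/ℚ)} (hτ : τ ∈ Q.inertia Gal(E/ℚ)) {n : ℕ} (hn : n ≠ 0)
    (hb : ((bad n : ℕ) : 𝓞 E) ∉ Q) {r : E} (h : IsRt n r) : τ r = r := by
  let v : IsDedekindDomain.HeightOneSpectrum (𝓞 E) :=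
    ⟨Q, hQ.isPrime, Ring.ne_bot_of_isMaximal_of_not_isField hQ (RingOfIntegers.not_isField E)⟩
  have hv : (FinitePlace.mk v).maximalIdeal.asIdeal = Q := by rw [FinitePlace.maximalIdeal_mk]
  have hc : ((bad n : ℕ) : 𝓞 E) = n * (4 * n - 1) := by
    unfold bad
    rw [Nat.cast_mul, Nat.cast_sub (by omega)]; simp
  rw [hc] at hb
  refine h.inertia_fix (FinitePlace.mk v) (hv ▸ hτ) hn ?_ ?_
  · have := w_int_eq_one (FinitePlace.mk v) (a := n)
      (by rw [hv]; exact fun h => hb (Q.mul_mem_right _ h))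
    simpa using this
  · have := w_int_eq_one (FinitePlace.mk v) (a := 4 * n - 1)
      (by rw [hv]; exact fun h => hb (Q.mul_mem_left _ h))
    simpa [map_ofNat] using this

theorem fix_of_integral {E : Type*} [Field E] [NumberField E] {Q : Ideal (𝓞 E)} (hQ : Q.IsMaximal)
    {τ : Gal(E/ℚ)} (hτ : τ ∈ Q.inertia Gal(E/ℚ)) {P : ℕ} (hb : (P : 𝓞 E) ∉ Q) {r : E}
    (h1 : IsIntegral ℤ (P * r)) (h2 : IsIntegral ℤ (P * (τ r - r)⁻¹)) : τ r = r := by
  let v : IsDedekindDomain.HeightOneSpectrum (𝓞 E) :=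
    ⟨Q, hQ.isPrime, Ring.ne_bot_of_isMaximal_of_not_isField hQ (RingOfIntegers.not_isField E)⟩
  have hv : (FinitePlace.mk v).maximalIdeal.asIdeal = Q := by rw [FinitePlace.maximalIdeal_mk]
  set w := FinitePlace.mk v
  have hP : w (P : E) = 1 := by
    have := w_int_eq_one w (a := P) (by rw [hv]; exact hb)
    simpa using this
  have a1 : w (P * r) ≤ 1 := w_int_le w ⟨_, h1⟩
  have a2 : w (P * (τ r - r)⁻¹) ≤ 1 := w_int_le w ⟨_, h2⟩
  rw [map_mul, hP, one_mul] at a1 a2
  have a3 := inertia_sub_lt w (hv ▸ hτ) a1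
  by_contra hne
  have a4 := w_mul_lt w a3 a2
  rw [mul_inv_cancel₀ (sub_ne_zero.mpr hne)] at a4
  simp at a4

end Pool.Agent.H405Z.Bog
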