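import Pool.Agent.H405Z.Bog.Defs
import Pool.Agent.H405Z.Bog.Key
import Pool.Agent.H405Z.Bog.Roots
import Pool.Agent.H559Z.Heights

/-!
The field `F` generated by all `θ + 1/θ`, where `θ` runs over the roots of the polynomials
`n X^(2 n^2) + (2n-1) X^(n^2) + n` for a sparse sequence of `n`.
-/

set_option autoImplicit false

namespace Pool.Agent.H405Z.Bog

open NumberField Polynomial IntermediateField Height

theorem algQbar : Algebra.IsAlgebraic ℚ (AlgebraicClosure ℚ) := AlgebraicClosure.isAlgebraic ℚ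

attribute [local instance] algQbar

/-- The polynomial whose roots satisfy `IsRt n`. -/
noncomputable def poly (n : ℕ) : ℚ[X] :=
  C (n : ℚ) * (X ^ (n * n)) ^ 2 + C (2 * n - 1 : ℚ) * X ^ (n * n) + C (n : ℚ)

theorem aeval_poly {A : Type*} [CommRing A] [Algebra ℚ A] (n : ℕ) (x : A) :
    aeval x (poly n) = 0 ↔ IsRt n x := by
  simp [poly, IsRt, map_ofNat]

theorem poly_ne_zero {n : ℕ} (hn : n ≠ 0) : poly n ≠ 0 := by
  intro h
  have : IsRt n (0 : ℚ) := by rw [← aeval_poly, h, map_zero]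
  exact this.ne_zero hn rfl

/-- `u` times the first `n` polynomials. -/
noncomputable def W (u : ℚ[X]) (n : ℕ) : ℚ[X] := u * ∏ k ∈ Finset.range n, poly (seq k)

theorem W_ne_zero {u : ℚ[X]} (hu : u ≠ 0) (n : ℕ) : W u n ≠ 0 :=
  mul_ne_zero hu (Finset.prod_ne_zero_iff.mpr fun k _ => poly_ne_zero (seq_ne_zero k))

theorem mem_rootSet_W {A : Type*} [Field A] [Algebra ℚ A] {u : ℚ[X]} (hu : u ≠ 0) (n : ℕ)
    (x : A) : x ∈ (W u n).rootSet A ↔ aeval x u = 0 ∨ ∃ k < n, IsRt (seq k) x := by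
  rw [mem_rootSet_of_ne (W_ne_zero hu n), W, map_mul, mul_eq_zero, map_prod,
    Finset.prod_eq_zero_iff]
  simp [aeval_poly]

theorem normal_fixing {G α : Type*} [Group G] [MulAction G α] (S : Set α)
    (hS : ∀ g : G, ∀ x ∈ S, g • x ∈ S) : (_root_.fixingSubgroup G S).Normal := by
  constructor
  intro a ha g
  rw [_root_.mem_fixingSubgroup_iff] at ha ⊢
  intro y hy
  rw [mul_smul, mul_smul, ha _ (hS _ _ hy), smul_inv_smul]

theorem card_le_of_fixing {G α : Type*} [Group G] [MulAction G α] (S : Set α) (hfin : S.Finite)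
    (hS : ∀ g : G, ∀ x ∈ S, g • x ∈ S) (A : Subgroup G) (h : A ⊓ _root_.fixingSubgroup G S = ⊥)
    {d : ℕ} (hd : S.ncard ≤ d) : Nat.card A ≤ (d + 1) ^ d := by
  have : Finite S := hfin
  let f : A → (S → S) := fun a x => ⟨(a : G) • (x : α), hS _ _ x.2⟩
  have hf : Function.Injective f := by
    intro a b hab
    have : ((b⁻¹ * a : A) : G) ∈ A ⊓ _root_.fixingSubgroup G S := by
      refine ⟨(b⁻¹ * a).2, ?_⟩
      change _ ∈ _root_.fixingSubgroup G S
      rw [_root_.mem_fixingSubgroup_iff]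
      intro y hy
      have : (a : G) • y = (b : G) • y := congrArg Subtype.val (congrFun hab ⟨y, hy⟩)
      simp [mul_smul, this]
    rw [h, Subgroup.mem_bot] at this
    have h2 : b⁻¹ * a = 1 := Subtype.ext this
    exact (inv_mul_eq_one.mp h2).symm
  have h1 := Nat.card_le_card_of_injective f hf
  rw [Nat.card_fun, Nat.card_coe_set_eq] at h1
  calc Nat.card A ≤ S.ncard ^ S.ncard := h1
    _ ≤ (d + 1) ^ S.ncard := Nat.pow_le_pow_left (by omega) _
    _ ≤ (d + 1) ^ d := Nat.pow_le_pow_right (by omega) hd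

/-- The generators `θ + 1/θ` of index below `n`. -/
def gens (n : ℕ) : Set (AlgebraicClosure ℚ) :=
  {x | ∃ k < n, ∃ θ : AlgebraicClosure ℚ, IsRt (seq k) θ ∧ x = θ + θ⁻¹}

/-- All generators. -/
def allGens : Set (AlgebraicClosure ℚ) :=
  {x | ∃ k, ∃ θ : AlgebraicClosure ℚ, IsRt (seq k) θ ∧ x = θ + θ⁻¹}

theorem exists_level (y : AlgebraicClosure ℚ) {α : AlgebraicClosure ℚ}
    (hα : α ∈ adjoin ℚ (allGens ∪ {y})) (m : ℕ) : ∃ n, m ≤ n ∧ α ∈ adjoin ℚ (gens n ∪ {y}) := by
  have mono : ∀ a b : ℕ, a ≤ b → adjoin ℚ (gens a ∪ {y}) ≤ adjoin ℚ (gens b ∪ {y}) := by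
    intro a b hab
    apply adjoin.mono
    apply Set.union_subset_union_left
    rintro x ⟨k, hk, h⟩
    exact ⟨k, by omega, h⟩
  induction hα using adjoin_induction with
  | mem x hx =>
    rcases hx with ⟨k, h⟩ | hx
    · exact ⟨max m (k + 1), le_max_left _ _, subset_adjoin _ _ (Or.inl ⟨k, by omega, h⟩)⟩
    · exact ⟨m, le_rfl, subset_adjoin _ _ (Or.inr hx)⟩
  | algebraMap q => exact ⟨m, le_rfl, IntermediateField.algebraMap_mem _ q⟩
  | add x y _ _ hx hy =>
    obtain ⟨a, ha, hx⟩ := hx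
    obtain ⟨b, hb, hy⟩ := hy
    exact ⟨max a b, by omega, add_mem (mono _ _ (le_max_left _ _) hx) (mono _ _ (le_max_right _ _) hy)⟩
  | inv x _ hx =>
    obtain ⟨a, ha, hx⟩ := hx
    exact ⟨a, ha, inv_mem hx⟩
  | mul x y _ _ hx hy =>
    obtain ⟨a, ha, hx⟩ := hx
    obtain ⟨b, hb, hy⟩ := hy
    exact ⟨max a b, by omega, mul_mem (mono _ _ (le_max_left _ _) hx) (mono _ _ (le_max_right _ _) hy)⟩

theorem exists_denom (S : Set (AlgebraicClosure ℚ)) (hS : S.Finite) :
    ∃ m : ℕ, m ≠ 0 ∧ ∀ s ∈ S, IsIntegral ℤ ((m : AlgebraicClosure ℚ) * s) := by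
  have : Algebra.IsAlgebraic ℤ (AlgebraicClosure ℚ) :=
    (IsFractionRing.comap_isAlgebraic_iff (A := ℤ) (K := ℚ)).mpr algQbar
  obtain ⟨y, hy, h⟩ := Algebra.IsAlgebraic.exists_integral_multiples ℤ hS.toFinset
  refine ⟨y.natAbs, by simpa using hy, fun s hs => ?_⟩
  have := h s (hS.mem_toFinset.mpr hs)
  rw [zsmul_eq_mul] at this
  rcases Int.natAbs_eq y with h1 | h1
  · rw [h1] at this; simpa using this
  · rw [h1] at this; simpa using this.neg

theorem bog_adjoin (y : AlgebraicClosure ℚ) : HasBogomolov (adjoin ℚ (allGens ∪ {y})) := by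
  classical
  set u := minpoly ℚ y with hudef
  have hu : u ≠ 0 := minpoly.ne_zero (Algebra.IsIntegral.isIntegral y)
  have hR := rootSet_finite u (AlgebraicClosure ℚ)
  obtain ⟨m, hm, hint⟩ := exists_denom _ (hR.union (hR.image2 (fun r r' => (r - r')⁻¹) hR))
  set d := (W u m).natDegree with hd
  set g := (d + 1) ^ d with hg
  set P := acc m with hP
  set N := g.factorial * P ^ (2 * g * g) with hN
  have hN0 : 0 < N := Nat.mul_pos g.factorial_pos (pow_pos (Nat.pos_of_ne_zero (acc_ne_zero m)) _)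
  have hNR : (0 : ℝ) < N := by exact_mod_cast hN0
  have hl2 : 0 < Real.log 2 := Real.log_pos (by norm_num)
  refine ⟨Real.log 2 / (4 * N), by positivity, fun α hα hα0 hnt => ?_⟩
  by_contra hlt
  push Not at hlt
  obtain ⟨n, hmn, hαn⟩ := exists_level y hα m
  let E : IntermediateField ℚ (AlgebraicClosure ℚ) :=
    adjoin ℚ ((W u n).rootSet (AlgebraicClosure ℚ))
  have hs : (W u n).IsSplittingField ℚ E := adjoin_rootSet_isSplittingField (IsAlgClosed.splits _)
  have : Normal ℚ E := Normal.of_isSplittingField (hFEp := hs)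
  have : FiniteDimensional ℚ E := IsSplittingField.finiteDimensional _ (W u n)
  have : NumberField E := {}
  have : IsGalois ℚ E := {}
  have hyE : y ∈ E := subset_adjoin _ _ ((mem_rootSet_W hu n y).mpr (Or.inl (minpoly.aeval ℚ y)))
  have hθE : ∀ k < n, ∀ θ, IsRt (seq k) θ → θ ∈ E := fun k hk θ h =>
    subset_adjoin _ _ ((mem_rootSet_W hu n θ).mpr (Or.inr ⟨k, hk, h⟩))
  have hle : adjoin ℚ (gens n ∪ {y}) ≤ E := by
    rw [adjoin_le_iff]
    rintro x (⟨k, hk, θ, h, rfl⟩ | rfl)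
    · exact add_mem (hθE k hk θ h) (inv_mem (hθE k hk θ h))
    · exact hyE
  let a₀ : E := ⟨α, hle hαn⟩
  let T : Set E := {x | ∃ k, m ≤ k ∧ IsRt (seq k) x}
  let R : Set E := (W u m).rootSet E
  have hTs : ∀ σ : Gal(E/ℚ), ∀ x ∈ T, σ • x ∈ T := by
    rintro σ x ⟨k, hk, h⟩
    exact ⟨k, hk, h.map σ⟩
  have hRs : ∀ σ : Gal(E/ℚ), ∀ x ∈ R, σ • x ∈ R := by
    intro σ x hx
    rw [mem_rootSet_of_ne (W_ne_zero hu m)] at hx ⊢
    rw [AlgEquiv.smul_def, aeval_algHom_apply, hx, map_zero]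
  let A := _root_.fixingSubgroup Gal(E/ℚ) T
  let B := _root_.fixingSubgroup Gal(E/ℚ) R
  have : A.Normal := normal_fixing T hTs
  have : B.Normal := normal_fixing R hRs
  have hAB : A ⊓ B = ⊥ := by
    rw [eq_bot_iff]
    rintro σ ⟨hA, hB⟩
    rw [Subgroup.mem_bot]
    apply AlgEquiv.coe_toAlgHom_injective
    apply AlgHom.ext_of_adjoin_eq_top hs.adjoin_rootSet'
    intro x hx
    have hA' := (_root_.mem_fixingSubgroup_iff _).mp hA
    have hB' := (_root_.mem_fixingSubgroup_iff _).mp hB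
    rcases (mem_rootSet_W hu n x).mp hx with h | ⟨k, -, h⟩
    · exact hB' x ((mem_rootSet_W hu m x).mpr (Or.inl h))
    · by_cases hk : k < m
      · exact hB' x ((mem_rootSet_W hu m x).mpr (Or.inr ⟨k, hk, h⟩))
      · exact hA' x ⟨k, by omega, h⟩
  have hcard : Nat.card A ≤ g :=
    card_le_of_fixing R (rootSet_finite _ _) hRs A hAB (ncard_rootSet_le _ _)
  have h1 : ∀ Q : Ideal (𝓞 E), Q.IsMaximal → (P : 𝓞 E) ∈ Q → Q.inertia Gal(E/ℚ) ≤ A := by
    intro Q hQ hPQ τ hτ
    rw [_root_.mem_fixingSubgroup_iff]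
    rintro x ⟨k, hk, h⟩
    refine fix_of_bad hQ hτ (seq_ne_zero k) (fun hb => hQ.ne_top ?_) h
    have hc := (Nat.isCoprime_iff_coprime.mpr (bad_coprime hk)).map (Int.castRingHom (𝓞 E))
    obtain ⟨s, t, hst⟩ := hc
    simp only [eq_intCast, Int.cast_natCast] at hst
    rw [Ideal.eq_top_iff_one, ← hst]
    exact Q.add_mem (Q.mul_mem_left _ hb) (Q.mul_mem_left _ hPQ)
  have h2 : ∀ Q : Ideal (𝓞 E), Q.IsMaximal → (P : 𝓞 E) ∉ Q → Q.inertia Gal(E/ℚ) ≤ B := by
    intro Q hQ hPQ τ hτ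
    have hdv : ∀ c : ℕ, c ∣ P → (c : 𝓞 E) ∉ Q := by
      rintro c ⟨e, he⟩ hc
      apply hPQ
      rw [he, Nat.cast_mul]
      exact Q.mul_mem_right _ hc
    rw [_root_.mem_fixingSubgroup_iff]
    intro x hx
    rcases (mem_rootSet_W hu m x).mp hx with h | ⟨k, hk, h⟩
    · have hroot : ∀ z : E, aeval z u = 0 → (z : AlgebraicClosure ℚ) ∈ u.rootSet _ := by
        intro z hz
        rw [mem_rootSet_of_ne hu]
        have := aeval_algHom_apply E.val z u
        rw [hz, map_zero] at this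
        exact this
      have hτx : aeval (τ x) u = 0 := by rw [aeval_algHom_apply, h, map_zero]
      have hinj : Function.Injective (E.val : E →ₐ[ℚ] AlgebraicClosure ℚ) := Subtype.val_injective
      refine fix_of_integral hQ hτ (hdv m (self_dvd_acc hm)) ?_ ?_
      · rw [← isIntegral_algHom_iff (E.val : E →+* AlgebraicClosure ℚ).toIntAlgHom hinj]
        have := hint _ (Or.inl (hroot x h))
        convert this using 1
        · exact Subsingleton.elim _ _
        · simp
      · rw [← isIntegral_algHom_iff (E.val : E →+* AlgebraicClosure ℚ).toIntAlgHom hinj]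
        have := hint _ (Or.inr (Set.mem_image2_of_mem (hroot _ hτx) (hroot x h)))
        convert this using 1
        · exact Subsingleton.elim _ _
        · simp
    · exact fix_of_bad hQ hτ (seq_ne_zero k) (hdv _ (bad_dvd_acc hk)) h
  obtain ⟨htop, hkey⟩ := key A B hAB hcard (acc_ne_zero m) h1 h2
  have ha0 : a₀ ≠ 0 := fun h => hα0 (congrArg Subtype.val h)
  have hD : (0 : ℝ) < Module.finrank ℚ E := by exact_mod_cast Module.finrank_pos
  have hH : logHeight₁ a₀ = Module.finrank ℚ E * absLogHeight₁ α :=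
    (absLogHeight_eq_of_mem E a₀).symm
  have hsm : 4 * (N : ℝ) * logHeight₁ a₀ < Module.finrank ℚ E * Real.log 2 := by
    rw [lt_div_iff₀ (by positivity)] at hlt
    rw [hH]
    nlinarith
  have hH0 := zero_le_logHeight₁ a₀
  have hfix := hkey a₀ ha0 (by change 2 * (N : ℝ) * _ < _; nlinarith)
  have hreal : ∀ φ : E →+* ℂ, (φ (a₀ ^ N)).im = 0 := by
    intro φ
    obtain ⟨σ, hσ⟩ := ComplexEmbedding.exists_comp_symm_eq_of_comp_eq (k := ℚ) φ
      ((starRingEnd ℂ).comp φ) (Subsingleton.elim _ _)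
    have hc : ∀ x, φ (σ.symm x) = (starRingEnd ℂ) (φ x) := fun x => RingHom.congr_fun hσ x
    have hσm : σ.symm ∈ B ⊔ A := by rw [sup_comm, htop]; trivial
    obtain ⟨b, hb, a, ha, hba⟩ := Subgroup.mem_sup_of_normal_right.mp hσm
    have ha' := (_root_.mem_fixingSubgroup_iff _).mp ha
    have hb' := (_root_.mem_fixingSubgroup_iff _).mp hb
    have hbα : b a₀ = a₀ := by
      have hle2 : adjoin ℚ (gens n ∪ {y}) ≤ lift (fixedField (Subgroup.zpowers b)) := by
        have hmem : ∀ x : E, b x = x → x.1 ∈ lift (fixedField (Subgroup.zpowers b)) := by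
          intro x hx
          rw [mem_lift, mem_fixedField_iff]
          intro f hf
          have : Subgroup.zpowers b ≤ MulAction.stabilizer _ x := by
            rw [Subgroup.zpowers_le]
            exact hx
          exact this hf
        rw [adjoin_le_iff]
        rintro x (⟨k, hk, θ, h, rfl⟩ | rfl)
        · let θ' : E := ⟨θ, hθE k hk θ h⟩
          have h' : IsRt (seq k) θ' := by
            unfold IsRt at h ⊢
            apply Subtype.ext
            exact h
          refine hmem (θ' + θ'⁻¹) ?_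
          by_cases hkm : k < m
          · have := hb' θ' ((mem_rootSet_W hu m θ').mpr (Or.inr ⟨k, hkm, h'⟩))
            rw [AlgEquiv.smul_def] at this
            rw [map_add, map_inv₀, this]
          · have e1 := ha' θ' ⟨k, by omega, h'⟩
            rw [AlgEquiv.smul_def] at e1
            have e2 := hc θ'
            rw [← hba, AlgEquiv.mul_apply, e1, (h'.map φ).conj_eq_inv (seq_ne_zero k),
              ← map_inv₀] at e2
            have e3 := φ.injective e2
            rw [map_add, map_inv₀, e3, inv_inv, add_comm]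
        · refine hmem ⟨x, hyE⟩ ?_
          refine hb' _ ((mem_rootSet_W hu m _).mpr (Or.inl ?_))
          apply Subtype.ext
          have := aeval_algHom_apply E.val ⟨x, hyE⟩ u
          exact this.symm.trans (minpoly.aeval ℚ x)
      have := (mem_lift (E := fixedField (Subgroup.zpowers b)) a₀).mp (hle2 hαn)
      exact (mem_fixedField_iff _ _).mp this b (Subgroup.mem_zpowers b)
    have e := hc (a₀ ^ N)
    rw [← hba, AlgEquiv.mul_apply, hfix a ha, map_pow, hbα] at e
    exact Complex.conj_eq_iff_im.mp e.symm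
  by_cases h3 : (a₀ ^ N) ^ 3 - a₀ ^ N = 0
  · apply hnt
    refine isOfFinOrder_iff_pow_eq_one.mpr ⟨N * 2, by omega, ?_⟩
    have h4 : (a₀ ^ N) ^ 2 = 1 := by
      apply mul_left_cancel₀ (pow_ne_zero N ha0)
      linear_combination h3
    rw [pow_mul]
    exact congrArg Subtype.val h4
  · have h4 := Pool.Agent.H559Z.mulHeight_lower (a₀ ^ N) hreal h3
    have h5 := Real.log_le_log (by positivity) h4
    rw [Real.log_pow, Real.log_pow, ← logHeight₁_eq_log_mulHeight₁, logHeight₁_pow] at h5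
    push_cast at h5
    linarith

theorem exists_root (n : ℕ) (hn : n ≠ 0) : ∃ θ : AlgebraicClosure ℚ, IsRt n θ := by
  obtain ⟨u, hu⟩ := exists_quadratic_eq_zero (K := AlgebraicClosure ℚ) (a := n) (b := 2 * n - 1)
    (c := n) (by exact_mod_cast hn) (IsAlgClosed.exists_eq_mul_self _)
  obtain ⟨θ, hθ⟩ := IsAlgClosed.exists_pow_nat_eq u (Nat.mul_pos (Nat.pos_of_ne_zero hn)
    (Nat.pos_of_ne_zero hn))
  refine ⟨θ, ?_⟩
  unfold IsRt
  rw [hθ]
  linear_combination hu

theorem isGalois_F : IsGalois ℚ (adjoin ℚ allGens) := by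
  have : IsAlgClosure ℚ (AlgebraicClosure ℚ) := ⟨inferInstance, algQbar⟩
  have : Normal ℚ (AlgebraicClosure ℚ) := IsAlgClosure.normal ℚ (AlgebraicClosure ℚ)
  have : Normal ℚ (adjoin ℚ allGens) := by
    refine IntermediateField.normal_iff_forall_map_le'.mpr fun σ => ?_
    rw [adjoin_map]
    apply adjoin.mono
    rintro _ ⟨x, ⟨k, θ, h, rfl⟩, rfl⟩
    exact ⟨k, σ θ, h.map σ, by simp⟩
  exact {}

theorem main : ∃ F : IntermediateField ℚ (AlgebraicClosure ℚ), IsGalois ℚ F ∧
    (∀ L : IntermediateField F (AlgebraicClosure ℚ), FiniteDimensional F L → HasBogomolov L) ∧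
    ∀ d : ℕ, 2 ≤ d → ¬ HasBogomolov (compositumDeg F d) := by
  refine ⟨adjoin ℚ allGens, isGalois_F, fun L hL => ?_, fun d hd => ?_⟩
  · obtain ⟨y, hy⟩ := Field.exists_primitive_element (adjoin ℚ allGens) L
    obtain ⟨c, hc, h⟩ := bog_adjoin (y : AlgebraicClosure ℚ)
    refine ⟨c, hc, fun x hx => h x ?_⟩
    rw [← adjoin_adjoin_left, mem_restrictScalars, ← lift_adjoin_simple, hy, lift_top]
    exact hx
  · rintro ⟨c, hc, h⟩
    obtain ⟨k, hk⟩ := exists_nat_gt (4 / c)
    obtain ⟨θ, hθ⟩ := exists_root (seq k) (seq_ne_zero k)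
    have hθ0 := hθ.ne_zero (seq_ne_zero k)
    have hk2 := le_seq k
    set F := adjoin ℚ allGens
    have hint : IsIntegral F θ := (Algebra.IsIntegral.isIntegral (R := ℚ) θ).tower_top
    let x : F := ⟨θ + θ⁻¹, subset_adjoin _ _ ⟨k, θ, hθ, rfl⟩⟩
    have hdeg : Module.finrank F F⟮θ⟯ ≤ 2 := by
      rw [adjoin.finrank hint]
      have hq : (X ^ 2 - C x * X + 1 : F[X]).Monic := by monicity!
      have hq2 : (X ^ 2 - C x * X + 1 : F[X]).natDegree = 2 := by compute_degree!
      rw [← hq2]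
      refine natDegree_le_natDegree (minpoly.min F θ hq ?_)
      simp only [map_add, map_sub, map_mul, map_pow, aeval_X, aeval_C, map_one]
      change θ ^ 2 - (θ + θ⁻¹) * θ + 1 = 0
      field_simp
      ring
    have hmem : θ ∈ compositumDeg F d := by
      have : F⟮θ⟯ ≤ compositumDeg F d :=
        le_iSup₂_of_le (f := fun (L : IntermediateField F (AlgebraicClosure ℚ))
          (_ : FiniteDimensional F L ∧ Module.finrank F L ≤ d) => L) F⟮θ⟯
          ⟨adjoin.finiteDimensional hint, hdeg.trans hd⟩ le_rfl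
      exact this (mem_adjoin_simple_self _ _)
    have h1 := h θ hmem hθ0 (hθ.not_isOfFinOrder (by omega))
    have hi : IsIntegral ℚ θ := Algebra.IsIntegral.isIntegral θ
    have : FiniteDimensional ℚ ℚ⟮θ⟯ := adjoin.finiteDimensional hi
    have : NumberField ℚ⟮θ⟯ := {}
    have h2 := absLogHeight_eq_of_mem ℚ⟮θ⟯ (AdjoinSimple.gen ℚ θ)
    have h3 : IsRt (seq k) (AdjoinSimple.gen ℚ θ) := by
      unfold IsRt at hθ ⊢
      apply Subtype.ext
      exact hθ
    have h4 := h3.height_le (seq_ne_zero k)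
    have hD : (0 : ℝ) < Module.finrank ℚ ℚ⟮θ⟯ := by exact_mod_cast Module.finrank_pos
    rw [← h2] at h4
    change _ * (_ * absLogHeight₁ θ) ≤ _ at h4
    have h5 : (seq k : ℝ) * absLogHeight₁ θ ≤ 4 := by nlinarith
    have h6 : (k : ℝ) ≤ seq k := by exact_mod_cast (by omega : k ≤ seq k)
    rw [div_lt_iff₀ hc] at hk
    nlinarith

end Pool.Agent.H405Z.Bog
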